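import Pool.Agent.Y425.CW.Cub
import Pool.Agent.Y425.OW6.E0
import Pool.Agent.Y425.OW6.E1
import Pool.Agent.Y425.OW6.E2
import Pool.Agent.Y425.OW6.E3
import Pool.Agent.Y425.OW6.E4
import Pool.Agent.Y425.OW6.E5
import Pool.Agent.Y425.OW6.E6
import Pool.Agent.Y425.OW6.E7
import Pool.Agent.Y425.OW6.E8
import Pool.Agent.Y425.OW6.E9
import Pool.Agent.Y425.OW6.E10
import Pool.Agent.Y425.OW6.E11
import Pool.Agent.Y425.OW6.E12
import Pool.Agent.Y425.OW6.E13
import Pool.Agent.Y425.OW6.E14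
import Pool.Agent.Y425.OW6.E15
import Pool.Agent.Y425.OW6.E16
import Pool.Agent.Y425.OW6.E17
import Pool.Agent.Y425.OW6.E18

set_option autoImplicit false

/-! All types of the table pass the checker. -/

namespace Pool.Agent.Y425.OW6

open Pool.Agent.TH222.RG (BT Ent)
open Pool.Agent.Y425.CW (chkFT)

theorem cons_ok {t : BT} {l : List BT} {es : List Ent} (h : chkFT S 6 tbl t es = true)
    (hl : ∀ t ∈ l, ∃ es, chkFT S 6 tbl t es = true) : ∀ t' ∈ t :: l, ∃ es, chkFT S 6 tbl t' es = true := by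
  intro t' ht'
  rcases List.mem_cons.1 ht' with h' | h'
  · subst h'; exact ⟨es, h⟩
  · exact hl t' h'

theorem nil_ok : ∀ t ∈ ([] : List BT), ∃ es, chkFT S 6 tbl t es = true :=
  fun _ ht => absurd ht List.not_mem_nil

theorem okB0 : ∀ t ∈ B0, ∃ es, chkFT S 6 tbl t es = true :=
  (cons_ok ok0 (cons_ok ok1 (cons_ok ok2 (cons_ok ok3 (cons_ok ok4 (cons_ok ok5 
  (cons_ok ok6 (cons_ok ok7 (cons_ok ok8 (cons_ok ok9 (cons_ok ok10 (cons_ok ok11 
  (cons_ok ok12 (cons_ok ok13 (cons_ok ok14 (cons_ok ok15 nil_ok))))))))))))))))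

theorem okB1 : ∀ t ∈ B1, ∃ es, chkFT S 6 tbl t es = true :=
  (cons_ok ok16 (cons_ok ok17 (cons_ok ok18 (cons_ok ok19 (cons_ok ok20 (cons_ok ok21 
  (cons_ok ok22 (cons_ok ok23 (cons_ok ok24 (cons_ok ok25 (cons_ok ok26 (cons_ok ok27 
  (cons_ok ok28 (cons_ok ok29 (cons_ok ok30 (cons_ok ok31 nil_ok))))))))))))))))

theorem okB2 : ∀ t ∈ B2, ∃ es, chkFT S 6 tbl t es = true :=
  (cons_ok ok32 (cons_ok ok33 (cons_ok ok34 (cons_ok ok35 (cons_ok ok36 (cons_ok ok37 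
  (cons_ok ok38 (cons_ok ok39 (cons_ok ok40 (cons_ok ok41 (cons_ok ok42 (cons_ok ok43 
  (cons_ok ok44 (cons_ok ok45 (cons_ok ok46 (cons_ok ok47 nil_ok))))))))))))))))

theorem okB3 : ∀ t ∈ B3, ∃ es, chkFT S 6 tbl t es = true :=
  (cons_ok ok48 (cons_ok ok49 (cons_ok ok50 (cons_ok ok51 (cons_ok ok52 (cons_ok ok53 
  (cons_ok ok54 (cons_ok ok55 (cons_ok ok56 (cons_ok ok57 (cons_ok ok58 (cons_ok ok59 
  (cons_ok ok60 (cons_ok ok61 (cons_ok ok62 (cons_ok ok63 nil_ok))))))))))))))))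

theorem okB4 : ∀ t ∈ B4, ∃ es, chkFT S 6 tbl t es = true :=
  (cons_ok ok64 (cons_ok ok65 (cons_ok ok66 (cons_ok ok67 (cons_ok ok68 (cons_ok ok69 
  (cons_ok ok70 (cons_ok ok71 (cons_ok ok72 (cons_ok ok73 (cons_ok ok74 (cons_ok ok75 
  (cons_ok ok76 (cons_ok ok77 (cons_ok ok78 (cons_ok ok79 nil_ok))))))))))))))))

theorem okB5 : ∀ t ∈ B5, ∃ es, chkFT S 6 tbl t es = true :=
  (cons_ok ok80 (cons_ok ok81 (cons_ok ok82 (cons_ok ok83 (cons_ok ok84 (cons_ok ok85 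
  (cons_ok ok86 (cons_ok ok87 (cons_ok ok88 (cons_ok ok89 (cons_ok ok90 (cons_ok ok91 
  (cons_ok ok92 (cons_ok ok93 (cons_ok ok94 (cons_ok ok95 nil_ok))))))))))))))))

theorem okB6 : ∀ t ∈ B6, ∃ es, chkFT S 6 tbl t es = true :=
  (cons_ok ok96 (cons_ok ok97 (cons_ok ok98 (cons_ok ok99 (cons_ok ok100 (cons_ok ok101 
  (cons_ok ok102 (cons_ok ok103 (cons_ok ok104 (cons_ok ok105 (cons_ok ok106 (cons_ok ok107 
  (cons_ok ok108 (cons_ok ok109 (cons_ok ok110 (cons_ok ok111 nil_ok))))))))))))))))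

theorem okB7 : ∀ t ∈ B7, ∃ es, chkFT S 6 tbl t es = true :=
  (cons_ok ok112 (cons_ok ok113 (cons_ok ok114 (cons_ok ok115 (cons_ok ok116 (cons_ok ok117 
  (cons_ok ok118 (cons_ok ok119 (cons_ok ok120 (cons_ok ok121 (cons_ok ok122 (cons_ok ok123 
  (cons_ok ok124 (cons_ok ok125 (cons_ok ok126 (cons_ok ok127 nil_ok))))))))))))))))

theorem okB8 : ∀ t ∈ B8, ∃ es, chkFT S 6 tbl t es = true :=
  (cons_ok ok128 (cons_ok ok129 (cons_ok ok130 (cons_ok ok131 (cons_ok ok132 (cons_ok ok133 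
  (cons_ok ok134 (cons_ok ok135 (cons_ok ok136 (cons_ok ok137 (cons_ok ok138 (cons_ok ok139 
  (cons_ok ok140 (cons_ok ok141 (cons_ok ok142 (cons_ok ok143 nil_ok))))))))))))))))

theorem okB9 : ∀ t ∈ B9, ∃ es, chkFT S 6 tbl t es = true :=
  (cons_ok ok144 (cons_ok ok145 (cons_ok ok146 (cons_ok ok147 (cons_ok ok148 (cons_ok ok149 
  (cons_ok ok150 (cons_ok ok151 (cons_ok ok152 (cons_ok ok153 (cons_ok ok154 (cons_ok ok155 
  (cons_ok ok156 (cons_ok ok157 (cons_ok ok158 (cons_ok ok159 nil_ok))))))))))))))))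

theorem okB10 : ∀ t ∈ B10, ∃ es, chkFT S 6 tbl t es = true :=
  (cons_ok ok160 (cons_ok ok161 (cons_ok ok162 (cons_ok ok163 (cons_ok ok164 (cons_ok ok165 
  (cons_ok ok166 (cons_ok ok167 (cons_ok ok168 (cons_ok ok169 (cons_ok ok170 (cons_ok ok171 
  (cons_ok ok172 (cons_ok ok173 (cons_ok ok174 (cons_ok ok175 nil_ok))))))))))))))))

theorem okB11 : ∀ t ∈ B11, ∃ es, chkFT S 6 tbl t es = true :=
  (cons_ok ok176 (cons_ok ok177 (cons_ok ok178 (cons_ok ok179 (cons_ok ok180 (cons_ok ok181 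
  (cons_ok ok182 (cons_ok ok183 (cons_ok ok184 (cons_ok ok185 (cons_ok ok186 (cons_ok ok187 
  (cons_ok ok188 (cons_ok ok189 (cons_ok ok190 (cons_ok ok191 nil_ok))))))))))))))))

theorem okB12 : ∀ t ∈ B12, ∃ es, chkFT S 6 tbl t es = true :=
  (cons_ok ok192 (cons_ok ok193 (cons_ok ok194 (cons_ok ok195 (cons_ok ok196 (cons_ok ok197 
  (cons_ok ok198 (cons_ok ok199 (cons_ok ok200 (cons_ok ok201 (cons_ok ok202 (cons_ok ok203 
  (cons_ok ok204 (cons_ok ok205 (cons_ok ok206 (cons_ok ok207 nil_ok))))))))))))))))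

theorem okB13 : ∀ t ∈ B13, ∃ es, chkFT S 6 tbl t es = true :=
  (cons_ok ok208 (cons_ok ok209 (cons_ok ok210 (cons_ok ok211 (cons_ok ok212 (cons_ok ok213 
  (cons_ok ok214 (cons_ok ok215 (cons_ok ok216 (cons_ok ok217 (cons_ok ok218 (cons_ok ok219 
  (cons_ok ok220 (cons_ok ok221 (cons_ok ok222 (cons_ok ok223 nil_ok))))))))))))))))

theorem okB14 : ∀ t ∈ B14, ∃ es, chkFT S 6 tbl t es = true :=
  (cons_ok ok224 (cons_ok ok225 (cons_ok ok226 (cons_ok ok227 (cons_ok ok228 (cons_ok ok229 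
  (cons_ok ok230 (cons_ok ok231 (cons_ok ok232 (cons_ok ok233 (cons_ok ok234 (cons_ok ok235 
  (cons_ok ok236 (cons_ok ok237 (cons_ok ok238 (cons_ok ok239 nil_ok))))))))))))))))

theorem okB15 : ∀ t ∈ B15, ∃ es, chkFT S 6 tbl t es = true :=
  (cons_ok ok240 (cons_ok ok241 (cons_ok ok242 (cons_ok ok243 (cons_ok ok244 (cons_ok ok245 
  (cons_ok ok246 (cons_ok ok247 (cons_ok ok248 (cons_ok ok249 (cons_ok ok250 (cons_ok ok251 
  (cons_ok ok252 (cons_ok ok253 (cons_ok ok254 (cons_ok ok255 nil_ok))))))))))))))))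

theorem okB16 : ∀ t ∈ B16, ∃ es, chkFT S 6 tbl t es = true :=
  (cons_ok ok256 (cons_ok ok257 (cons_ok ok258 (cons_ok ok259 (cons_ok ok260 (cons_ok ok261 
  (cons_ok ok262 (cons_ok ok263 (cons_ok ok264 (cons_ok ok265 (cons_ok ok266 (cons_ok ok267 
  (cons_ok ok268 (cons_ok ok269 (cons_ok ok270 (cons_ok ok271 nil_ok))))))))))))))))

theorem okB17 : ∀ t ∈ B17, ∃ es, chkFT S 6 tbl t es = true :=
  (cons_ok ok272 (cons_ok ok273 (cons_ok ok274 (cons_ok ok275 (cons_ok ok276 (cons_ok ok277 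
  (cons_ok ok278 (cons_ok ok279 (cons_ok ok280 (cons_ok ok281 (cons_ok ok282 (cons_ok ok283 
  (cons_ok ok284 (cons_ok ok285 (cons_ok ok286 (cons_ok ok287 nil_ok))))))))))))))))

theorem okB18 : ∀ t ∈ B18, ∃ es, chkFT S 6 tbl t es = true :=
  (cons_ok ok288 (cons_ok ok289 (cons_ok ok290 (cons_ok ok291 (cons_ok ok292 (cons_ok ok293 
  (cons_ok ok294 (cons_ok ok295 (cons_ok ok296 (cons_ok ok297 (cons_ok ok298 (cons_ok ok299 
  (cons_ok ok300 (cons_ok ok301 (cons_ok ok302 (cons_ok ok303 nil_ok))))))))))))))))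

theorem okB19 : ∀ t ∈ B19, ∃ es, chkFT S 6 tbl t es = true :=
  (cons_ok ok304 (cons_ok ok305 (cons_ok ok306 (cons_ok ok307 (cons_ok ok308 (cons_ok ok309 
  (cons_ok ok310 (cons_ok ok311 (cons_ok ok312 (cons_ok ok313 (cons_ok ok314 (cons_ok ok315 
  (cons_ok ok316 (cons_ok ok317 (cons_ok ok318 (cons_ok ok319 nil_ok))))))))))))))))

theorem okB20 : ∀ t ∈ B20, ∃ es, chkFT S 6 tbl t es = true :=
  (cons_ok ok320 (cons_ok ok321 (cons_ok ok322 (cons_ok ok323 (cons_ok ok324 (cons_ok ok325 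
  (cons_ok ok326 (cons_ok ok327 (cons_ok ok328 (cons_ok ok329 (cons_ok ok330 (cons_ok ok331 
  (cons_ok ok332 (cons_ok ok333 (cons_ok ok334 (cons_ok ok335 nil_ok))))))))))))))))

theorem okB21 : ∀ t ∈ B21, ∃ es, chkFT S 6 tbl t es = true :=
  (cons_ok ok336 (cons_ok ok337 (cons_ok ok338 (cons_ok ok339 (cons_ok ok340 (cons_ok ok341 
  (cons_ok ok342 (cons_ok ok343 (cons_ok ok344 (cons_ok ok345 (cons_ok ok346 (cons_ok ok347 
  (cons_ok ok348 (cons_ok ok349 (cons_ok ok350 (cons_ok ok351 nil_ok))))))))))))))))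

theorem okB22 : ∀ t ∈ B22, ∃ es, chkFT S 6 tbl t es = true :=
  (cons_ok ok352 (cons_ok ok353 (cons_ok ok354 (cons_ok ok355 (cons_ok ok356 (cons_ok ok357 
  (cons_ok ok358 (cons_ok ok359 (cons_ok ok360 (cons_ok ok361 (cons_ok ok362 (cons_ok ok363 
  (cons_ok ok364 (cons_ok ok365 (cons_ok ok366 (cons_ok ok367 nil_ok))))))))))))))))

theorem okB23 : ∀ t ∈ B23, ∃ es, chkFT S 6 tbl t es = true :=
  (cons_ok ok368 (cons_ok ok369 (cons_ok ok370 (cons_ok ok371 (cons_ok ok372 (cons_ok ok373 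
  (cons_ok ok374 (cons_ok ok375 (cons_ok ok376 (cons_ok ok377 (cons_ok ok378 (cons_ok ok379 
  (cons_ok ok380 (cons_ok ok381 (cons_ok ok382 (cons_ok ok383 nil_ok))))))))))))))))

theorem okB24 : ∀ t ∈ B24, ∃ es, chkFT S 6 tbl t es = true :=
  (cons_ok ok384 (cons_ok ok385 (cons_ok ok386 (cons_ok ok387 (cons_ok ok388 (cons_ok ok389 
  (cons_ok ok390 (cons_ok ok391 (cons_ok ok392 (cons_ok ok393 (cons_ok ok394 (cons_ok ok395 
  (cons_ok ok396 (cons_ok ok397 (cons_ok ok398 (cons_ok ok399 nil_ok))))))))))))))))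

theorem okB25 : ∀ t ∈ B25, ∃ es, chkFT S 6 tbl t es = true :=
  (cons_ok ok400 (cons_ok ok401 (cons_ok ok402 (cons_ok ok403 (cons_ok ok404 (cons_ok ok405 
  (cons_ok ok406 (cons_ok ok407 (cons_ok ok408 (cons_ok ok409 (cons_ok ok410 (cons_ok ok411 
  (cons_ok ok412 (cons_ok ok413 (cons_ok ok414 (cons_ok ok415 nil_ok))))))))))))))))

theorem okB26 : ∀ t ∈ B26, ∃ es, chkFT S 6 tbl t es = true :=
  (cons_ok ok416 (cons_ok ok417 (cons_ok ok418 (cons_ok ok419 (cons_ok ok420 (cons_ok ok421 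
  (cons_ok ok422 (cons_ok ok423 (cons_ok ok424 nil_ok)))))))))

theorem okBB : ∀ B ∈ BB, ∀ t ∈ B, ∃ es, chkFT S 6 tbl t es = true := by
  intro B hB
  simp only [BB, List.mem_cons, List.not_mem_nil, or_false] at hB
  rcases hB with h | h | h | h | h | h | h | h | h | h | h | h | h | h | h | h | h | h | h | h | h | h | h | h | h | h | h
  · subst h; exact okB0
  · subst h; exact okB1
  · subst h; exact okB2
  · subst h; exact okB3
  · subst h; exact okB4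
  · subst h; exact okB5
  · subst h; exact okB6
  · subst h; exact okB7
  · subst h; exact okB8
  · subst h; exact okB9
  · subst h; exact okB10
  · subst h; exact okB11
  · subst h; exact okB12
  · subst h; exact okB13
  · subst h; exact okB14
  · subst h; exact okB15
  · subst h; exact okB16
  · subst h; exact okB17
  · subst h; exact okB18
  · subst h; exact okB19
  · subst h; exact okB20
  · subst h; exact okB21
  · subst h; exact okB22
  · subst h; exact okB23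
  · subst h; exact okB24
  · subst h; exact okB25
  · subst h; exact okB26

theorem ok_all (i : ℕ) : ∃ es, chkFT S 6 tbl (tbl i) es = true := by
  rcases Pool.Agent.Y425.CW.tbl_cases BB T0 i with ⟨B, hB, h⟩ | h
  · exact okBB B hB _ h
  · have h' : tbl i = T0 := h
    rw [h']
    exact ⟨E0, ok0⟩

theorem pos_all_aux : (BB.all fun B => B.all fun t => Nat.blt 0 t.n) = true := by decide +kernel

theorem pos_all (i : ℕ) : 0 < (tbl i).n := by
  rcases Pool.Agent.Y425.CW.tbl_cases BB T0 i with ⟨B, hB, h⟩ | h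
  · have := List.all_eq_true.1 (List.all_eq_true.1 pos_all_aux B hB) _ h
    exact Nat.le_of_ble_eq_true this
  · have h' : tbl i = T0 := h
    rw [h']; exact Nat.one_pos

end Pool.Agent.Y425.OW6
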