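import Pool.Agent.Y425.OW6.Ok
import Pool.Agent.Y425.OW6.All
import Pool.Agent.Y425.CW.Gen
import Pool.Agent.TH505.OW.Fin

set_option autoImplicit false

/-!
Orientable five cycle double covers of the bridgeless simple graphs of cutwidth at most six.
-/

open Finset

namespace Pool.Agent.Y425.OW6

open Pool.Agent.Y425.CW
open Pool.Agent.TH505.OW (Good sE tE st_adj st_eq bridge_conv five_of_good gfl co bd)
open Pool.Agent.TH505.OCDC Pool.Agent.TH505.SC

/-- the multigraph version -/
theorem main_good (V E : Type) [Fintype V] [Fintype E] (s t : E → V) (hbr : Br s t)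
    (hw : ∃ num, Wd 6 s t num) : ∃ f : E → ℕ, Good s t f Set.univ := by
  classical
  obtain ⟨f, hf1, hf2⟩ := general ok tbl ok_all pos_all rfl rfl rfl ex V E s t hbr hw
  choose c hc using hf1
  refine ⟨c, fun e => ?_, fun v _ i hi => ?_⟩
  · rw [Pool.Agent.TH505.OW.vc_iff]
    exact ⟨vc_lt (hc e).1, vc_ne (hc e).1⟩
  · have h1 := congrFun (hf2 v) ⟨i, hi⟩
    unfold nt at h1
    rw [Finset.sum_apply] at h1
    refine Eq.trans ?_ h1
    unfold bd
    refine sum_congr rfl fun e _ => ?_
    have h3 : f e ⟨i, hi⟩ = co (c e) i := by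
      rw [← (hc e).2]; rfl
    rw [Pi.sub_apply, mul_sub]
    congr 1
    · by_cases h : s e = v
      · rw [if_pos h, if_pos h, mul_one, h3]
      · rw [if_neg h, if_neg h, mul_zero]; rfl
    · by_cases h : t e = v
      · rw [if_pos h, if_pos h, mul_one, h3]
      · rw [if_neg h, if_neg h, mul_zero]; rfl

theorem width_conv {V : Type} [Fintype V] (G : SimpleGraph V) [Fintype G.edgeSet] (w : ℕ)
    (num : V → ℕ) (n : ℕ)
    (h : ({p : V × V | G.Adj p.1 p.2 ∧ num p.1 < n ∧ n ≤ num p.2} : Set (V × V)).ncard ≤ w) :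
    (ct (sE G) (tE G) {v | num v < n}).card ≤ w := by
  classical
  refine le_trans ?_ h
  rw [Set.ncard_eq_toFinset_card']
  apply card_le_card_of_injOn (fun e => if num (sE G e) < n then (sE G e, tE G e) else
    (tE G e, sE G e))
  · intro e he
    rw [mem_coe, mem_ct] at he
    simp only [Set.mem_ofPred_eq] at he
    rw [mem_coe, Set.mem_toFinset]
    simp only [Set.mem_ofPred_eq]
    by_cases h1 : num (sE G e) < n
    · rw [if_pos h1]
      have h3 : n ≤ num (tE G e) := by
        by_contra h2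
        exact he ⟨fun _ => by omega, fun _ => h1⟩
      exact ⟨st_adj G e, h1, h3⟩
    · rw [if_neg h1]
      have h4 : n ≤ num (sE G e) := by omega
      refine ⟨(st_adj G e).symm, ?_, h4⟩
      by_contra h2
      exact he ⟨fun h3 => absurd h3 h1, fun h3 => absurd h3 h2⟩
  · intro e he e' he' hee
    beta_reduce at hee
    have key : ∀ e : G.edgeSet, ∃ p : V × V, (if num (sE G e) < n then (sE G e, tE G e) else
        (tE G e, sE G e)) = p ∧ e.1 = s(p.1, p.2) := by
      intro e
      by_cases h1 : num (sE G e) < n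
      · rw [if_pos h1]; exact ⟨_, rfl, (Pool.Agent.TH505.OW.st_mk G e).symm⟩
      · rw [if_neg h1]; exact ⟨_, rfl, by rw [← Pool.Agent.TH505.OW.st_mk G e, Sym2.eq_swap]⟩
    obtain ⟨p, hp, hp'⟩ := key e
    obtain ⟨q, hq, hq'⟩ := key e'
    rw [hp, hq] at hee
    apply Subtype.ext
    rw [hp', hq', hee]

open scoped Classical in
theorem final {V : Type} [Fintype V] (G : SimpleGraph V)
    (h : ∀ u v : V, G.Adj u v → (G.deleteEdges {s(u, v)}).Reachable u v)
    (hw : ∃ num : V → ℕ, Function.Injective num ∧ ∀ n,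
      ({p : V × V | G.Adj p.1 p.2 ∧ num p.1 < n ∧ n ≤ num p.2} : Set (V × V)).ncard ≤ 6) :
    ∃ C : Fin 5 → List (Σ v : V, G.Walk v v), (∀ i, ∀ c ∈ C i, c.2.IsCycle) ∧
      (∀ i u v, tot (C i) u v + tot (C i) v u ≤ 1) ∧
      ∀ u v, G.Adj u v → ∑ i, tot (C i) u v = 1 := by
  obtain ⟨num, hinj, hnum⟩ := hw
  obtain ⟨f, hf⟩ := main_good V G.edgeSet (sE G) (tE G) (bridge_conv G h)
    ⟨num, hinj, fun n => width_conv G 6 num n (hnum n)⟩
  obtain ⟨h1, h2, h4, h5, h6⟩ := five_of_good G f hf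
  have key : ∀ i, ∃ C : List (Σ v : V, G.Walk v v), (∀ c ∈ C, c.2.IsCycle) ∧
      ∀ u v, tot C u v = ind (gfl G f i u v = 1) := fun i =>
    flow_decomp (gfl G f i) (h1 i) (h4 i) (fun u v hne => by
      by_contra h'
      exact hne (h5 i u v h')) (h2 i)
  choose C hC1 hC2 using key
  refine ⟨C, hC1, ?_, ?_⟩
  · intro i u v
    rw [hC2, hC2, h1 i u v]
    rcases h4 i u v with h7 | h7 | h7
    · rw [h7, ind_neg (by norm_num), ind_neg (by norm_num)]; norm_num
    · rw [h7, ind_pos rfl, ind_neg (by norm_num)]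
    · rw [h7, ind_neg (by norm_num), ind_pos (by norm_num)]
  · intro u v huv
    rw [Finset.sum_congr rfl (fun i _ => hC2 i u v)]
    obtain ⟨i, hi1, hi2⟩ := h6 u v huv
    rw [Finset.sum_eq_single i]
    · exact ind_pos hi1
    · intro k _ hk
      exact ind_neg (fun h' => hk (hi2 k h'))
    · intro h'; exact absurd (mem_univ _) h'

end Pool.Agent.Y425.OW6
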