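import Pool.Agent.Y425.OW6.Col
import Pool.Agent.Y425.CW.Stp

set_option autoImplicit false

namespace Pool.Agent.Y425.OW6

open Finset
open Pool.Agent.TH697.CW6 (allB allB_iff)
open Pool.Agent.TH222.RG (beq_iff blt_iff)
open Pool.Agent.Y425.CW
open Pool.Agent.TH505.OW (co)

theorem rho_ok : (allB 240 fun g => allB 5 fun i => Nat.blt (rho g i) 5) = true := by
  decide +kernel

theorem vc_ok : (allB 25 fun c => !(bne (vc c) (!(Nat.beq (Nat.div c 5) (Nat.mod c 5))))) =
    true := by
  decide +kernel

theorem pa_ok : (allB 25 fun c => Nat.beq (pa c) (Nat.pow 16 (Nat.div c 5)) &&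
    Nat.beq (pb c) (Nat.pow 16 (Nat.mod c 5))) = true := by
  decide +kernel

theorem pt_ok : (allB 240 fun g => allB 25 fun c => cond (vc c) (vc (pt g c) && allB 5 fun i =>
    cond (Nat.beq (Nat.land g 1) 0)
      (!(bne (Nat.beq (Nat.div (pt g c) 5) i) (Nat.beq (Nat.div c 5) (rho g i))) &&
        !(bne (Nat.beq (Nat.mod (pt g c) 5) i) (Nat.beq (Nat.mod c 5) (rho g i))))
      (!(bne (Nat.beq (Nat.div (pt g c) 5) i) (Nat.beq (Nat.mod c 5) (rho g i))) &&
        !(bne (Nat.beq (Nat.mod (pt g c) 5) i) (Nat.beq (Nat.div c 5) (rho g i))))) true) =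
    true := by
  decide +kernel

theorem vc_lt {c : ℕ} (h : vc c = true) : c < 25 := by
  unfold vc at h
  rw [Bool.and_eq_true] at h
  exact (blt_iff _ _).1 h.1

theorem vc_ne {c : ℕ} (h : vc c = true) : c / 5 ≠ c % 5 := by
  have h1 := vc_ok
  rw [allB_iff] at h1
  have h2 := h1 c (vc_lt h)
  rw [h] at h2
  intro h3
  have h4 : Nat.beq (Nat.div c 5) (Nat.mod c 5) = true := (beq_iff _ _).2 h3
  rw [h4] at h2
  exact absurd h2 (by decide)

theorem vc_of {c : ℕ} (h : c < 25) (h' : c / 5 ≠ c % 5) : vc c = true := by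
  have h1 := vc_ok
  rw [allB_iff] at h1
  have h2 := h1 c h
  have h4 : Nat.beq (Nat.div c 5) (Nat.mod c 5) = false := by
    rw [← Bool.not_eq_true, beq_iff]
    exact h'
  rw [h4] at h2
  revert h2
  cases vc c <;> simp

theorem nb_iff {a b c d : ℕ} (h : (!(bne (Nat.beq a b) (Nat.beq c d))) = true) :
    a = b ↔ c = d := by
  rw [← beq_iff a b, ← beq_iff c d]
  revert h
  cases Nat.beq a b <;> cases Nat.beq c d <;> simp

/-- number of the places with value j -/
def cn (k : ℕ) (G : ℕ → ℕ) (j : ℕ) : ℕ := ((range k).filter fun i => G i = j).card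

theorem cn_le (k : ℕ) (G : ℕ → ℕ) (j : ℕ) : cn k G j ≤ k := by
  unfold cn
  exact (card_filter_le _ _).trans (by rw [card_range])

theorem sm_eq (k : ℕ) (f : ℕ → ℕ) : sm k f = ∑ i ∈ range k, f i := by
  induction k with
  | zero => rfl
  | succ k ih =>
    have h0 : sm (k + 1) f = f k + sm k f := rfl
    rw [h0, ih, sum_range_succ, add_comm]

theorem pow_sum (k : ℕ) (G : ℕ → ℕ) (hG : ∀ i < k, G i < 5) :
    ∑ i ∈ range k, 16 ^ (G i) = cn k G 0 + 16 * cn k G 1 + 256 * cn k G 2 + 4096 * cn k G 3 +
      65536 * cn k G 4 := by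
  have h1 : ∀ i ∈ range k, 16 ^ (G i) = (if G i = 0 then 1 else 0) + 16 * (if G i = 1 then 1 else 0) +
      256 * (if G i = 2 then 1 else 0) + 4096 * (if G i = 3 then 1 else 0) +
      65536 * (if G i = 4 then 1 else 0) := by
    intro i hi
    have := hG i (mem_range.1 hi)
    interval_cases (G i) <;> simp
  rw [sum_congr rfl h1]
  simp only [sum_add_distrib, ← mul_sum, cn, card_filter]

theorem ok : S.Ok where
  neg c hc := by
    have h25 := vc_lt hc
    have hne := vc_ne hc
    refine ⟨5 * (c % 5) + c / 5, ?_, ?_⟩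
    · apply vc_of
      · omega
      · have e1 : (5 * (c % 5) + c / 5) / 5 = c % 5 := by omega
        have e2 : (5 * (c % 5) + c / 5) % 5 = c / 5 := by omega
        rw [e1, e2]
        exact fun h => hne h.symm
    · funext i
      exact Pool.Agent.TH505.OW.co_sw c i h25
  sym g hg := by
    have hg' : g < 240 := hg
    have h1 := pt_ok
    have h2 := rho_ok
    rw [allB_iff] at h1 h2
    have h3 := h1 g hg'
    have h4 := h2 g hg'
    rw [allB_iff] at h3 h4
    have h5 : ∀ i < 5, rho g i < 5 := fun i hi => (blt_iff _ _).1 (h4 i hi)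
    cases hpar : Nat.beq (Nat.land g 1) 0
    · refine ⟨⟨⟨fun x i => - x ⟨rho g i, h5 i i.2⟩, ?_⟩, ?_⟩, ?_⟩
      · funext i; exact neg_zero
      · intro x y; funext i; exact neg_add _ _
      intro c hc
      have hc' : vc c = true := hc
      have h6 := h3 c (vc_lt hc')
      rw [hc', cond_true, Bool.and_eq_true, allB_iff] at h6
      refine ⟨h6.1, ?_⟩
      funext i
      have h7 := h6.2 i i.2
      rw [hpar, cond_false, Bool.and_eq_true] at h7
      show co (pt g c) i = - co c (rho g i)
      unfold co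
      have a1 : pt g c / 5 = i ↔ c % 5 = rho g i := nb_iff h7.1
      have a2 : pt g c % 5 = i ↔ c / 5 = rho g i := nb_iff h7.2
      simp only [a1, a2]
      ring
    · refine ⟨⟨⟨fun x i => x ⟨rho g i, h5 i i.2⟩, rfl⟩, fun x y => rfl⟩, ?_⟩
      intro c hc
      have hc' : vc c = true := hc
      have h6 := h3 c (vc_lt hc')
      rw [hc', cond_true, Bool.and_eq_true, allB_iff] at h6
      refine ⟨h6.1, ?_⟩
      funext i
      have h7 := h6.2 i i.2
      rw [hpar, cond_true, Bool.and_eq_true] at h7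
      show co (pt g c) i = co c (rho g i)
      unfold co
      have a1 : pt g c / 5 = i ↔ c / 5 = rho g i := nb_iff h7.1
      have a2 : pt g c % 5 = i ↔ c % 5 = rho g i := nb_iff h7.2
      simp only [a1, a2]
  sum k hk F hF h := by
    have h1 : sm k (fun i => pa (F i)) = sm k (fun i => pb (F i)) := (beq_iff _ _).1 h
    have hpa := pa_ok
    rw [allB_iff] at hpa
    have h25 : ∀ i < k, F i < 25 := fun i hi => vc_lt (hF i hi)
    rw [sm_eq, sm_eq] at h1
    have e1 : ∑ i ∈ range k, pa (F i) = ∑ i ∈ range k, 16 ^ (F i / 5) := by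
      refine sum_congr rfl fun i hi => ?_
      have := hpa _ (h25 i (mem_range.1 hi))
      rw [Bool.and_eq_true] at this
      exact (beq_iff _ _).1 this.1
    have e2 : ∑ i ∈ range k, pb (F i) = ∑ i ∈ range k, 16 ^ (F i % 5) := by
      refine sum_congr rfl fun i hi => ?_
      have := hpa _ (h25 i (mem_range.1 hi))
      rw [Bool.and_eq_true] at this
      exact (beq_iff _ _).1 this.2
    rw [e1, e2, pow_sum k (fun i => F i / 5) (fun i hi => by have := h25 i hi; omega),
      pow_sum k (fun i => F i % 5) (fun i hi => by omega)] at h1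
    have b1 := fun j => (cn_le k (fun i => F i / 5) j).trans hk
    have b2 := fun j => (cn_le k (fun i => F i % 5) j).trans hk
    have key : ∀ j < 5, cn k (fun i => F i / 5) j = cn k (fun i => F i % 5) j := by
      have c0 := b1 0
      have c1 := b1 1
      have c2 := b1 2
      have c3 := b1 3
      have c4 := b1 4
      have d0 := b2 0
      have d1 := b2 1
      have d2 := b2 2
      have d3 := b2 3
      have d4 := b2 4
      intro j hj
      interval_cases j <;> omega
    funext j
    rw [Finset.sum_apply]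
    show ∑ i ∈ range k, co (F i) j = 0
    unfold co
    rw [sum_sub_distrib]
    have k1 := key j j.2
    unfold cn at k1
    rw [card_filter, card_filter] at k1
    have k2 : ((∑ i ∈ range k, if F i / 5 = (j : ℕ) then 1 else 0 : ℕ) : ℤ) =
        ((∑ i ∈ range k, if F i % 5 = (j : ℕ) then 1 else 0 : ℕ) : ℤ) := by
      exact_mod_cast k1
    push_cast at k2
    rw [k2, sub_self]

theorem ex : ∃ c, S.vc c = true := ⟨1, rfl⟩

end Pool.Agent.Y425.OW6
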